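import Pool.Agent.W97.TW.HeckeForm

/-!
The Fricke involution on cusp forms of level `N`.
-/

set_option autoImplicit false

open UpperHalfPlane MatrixGroups CongruenceSubgroup Filter Topology
open scoped ModularForm Pointwise

namespace Pool.Agent.Run7.h741.FR

open Pool.Agent.W97.TW

variable {N : ℕ} [NeZero N] {k : ℤ} (f : CuspForm (Gamma0 N : Subgroup (GL (Fin 2) ℝ)) k)

lemma fr_pos (N : ℕ) [NeZero N] : (0 : ℤ) < 0 * 0 - (-1) * N := by
  have := Nat.pos_of_ne_zero (NeZero.ne N)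
  push_cast
  omega

lemma fr_slash (g : GL (Fin 2) ℝ) (hg : g ∈ (Gamma0 N : Subgroup (GL (Fin 2) ℝ))) :
    ((f : ℍ → ℂ) ∣[k] al 0 (-1) N 0 (fr_pos N)) ∣[k] g =
      (f : ℍ → ℂ) ∣[k] al 0 (-1) N 0 (fr_pos N) := by
  obtain ⟨γ, hγ, rfl⟩ := hg
  obtain ⟨x, y, z, w, hx, rfl⟩ := exists_mkSL γ
  have hγ' : mkSL x y z w hx ∈ Gamma0 N := hγ
  rw [mkSL_mem] at hγ'
  obtain ⟨c, rfl⟩ := hγ'
  have hdet : w * x - (-c) * (-(N * y)) = 1 := by linarith
  have he := al_mul (fr_pos N) (fr_pos N) (mkSL x y (N * c) w hx) (mkSL w (-c) (-(N * y)) x hdet) (by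
    rw [mkSL_coe, mkSL_coe, Matrix.mul_fin_two, Matrix.mul_fin_two]
    congr 1
    ext i j
    fin_cases i <;> fin_cases j <;> simp <;> ring)
  change ((f : ℍ → ℂ) ∣[k] al 0 (-1) N 0 (fr_pos N)) ∣[k] ((mkSL x y (N * c) w hx : SL(2, ℤ)) : GL (Fin 2) ℝ) = _
  rw [← SlashAction.slash_mul, he, SlashAction.slash_mul]
  congr 1
  exact SlashInvariantFormClass.slash_action_eq f _
    ⟨_, (mkSL_mem _ _ _ _ hdet N).2 ⟨-y, by ring⟩, rfl⟩

/-- the Fricke involution -/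
noncomputable def frForm : CuspForm (Gamma0 N : Subgroup (GL (Fin 2) ℝ)) k where
  toFun := (f : ℍ → ℂ) ∣[k] al 0 (-1) N 0 (fr_pos N)
  slash_action_eq' := fr_slash f
  holo' := holo_slash f 0 (-1) N 0 (fr_pos N)
  zero_at_cusps' := fun hc => zero_slash' f 0 (-1) N 0 (fr_pos N) hc

lemma frForm_apply (z : ℍ) : frForm f z =
    f (ofComplex (-1 / (N * (z : ℂ)))) * (N : ℂ) ^ (k - 1) * ((N : ℂ) * z) ^ (-k) := by
  change ((f : ℍ → ℂ) ∣[k] al 0 (-1) N 0 (fr_pos N)) z = _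
  rw [slash_al]
  push_cast
  simp only [zero_mul, zero_add, add_zero, zero_sub, neg_mul, one_mul, neg_neg]

end Pool.Agent.Run7.h741.FR
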